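import Mathlib
import Pool.Agent.Lib.helper32.ProdBd

set_option autoImplicit false

namespace Pool.Agent.Results.MP_bddfa7_gt.Product

open Set Pool.Agent.Lib.helper32.ProdBd

universe u v

/-- coarse structures: contain the diagonal, closed under subsets, finite unions, inverses, compositions -/
def Coarse {X : Type u} (𝓔 : Set (Set (X × X))) : Prop :=
  diagonal X ∈ 𝓔 ∧ (∀ E ∈ 𝓔, ∀ F, F ⊆ E → F ∈ 𝓔) ∧ (∀ E ∈ 𝓔, ∀ F ∈ 𝓔, E ∪ F ∈ 𝓔) ∧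
    (∀ E ∈ 𝓔, Prod.swap ⁻¹' E ∈ 𝓔) ∧ ∀ E ∈ 𝓔, ∀ F ∈ 𝓔, {p | ∃ y, (p.1, y) ∈ E ∧ (y, p.2) ∈ F} ∈ 𝓔

/-- balleans: connected coarse structures -/
def Ballean {X : Type u} (𝓔 : Set (Set (X × X))) : Prop := Coarse 𝓔 ∧ ⋃₀ 𝓔 = univ

/-- `E[x]` -/
def ball {X : Type u} (E : Set (X × X)) (x : X) : Set X := {y | (x, y) ∈ E}

def Bdd {X : Type u} (𝓔 : Set (Set (X × X))) (A : Set X) : Prop := ∃ E ∈ 𝓔, ∃ x, A ⊆ ball E x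

/-- the set `{((x,y),(x',y')) : (x,x') ∈ E, (y,y') ∈ F}` -/
def pr {X : Type u} {Y : Type v} (E : Set (X × X)) (F : Set (Y × Y)) : Set ((X × Y) × (X × Y)) :=
  {p | (p.1.1, p.2.1) ∈ E ∧ (p.1.2, p.2.2) ∈ F}

/-- slowly oscillating functions -/
def SO {X : Type u} (𝓔 : Set (Set (X × X))) (f : X → ℝ) : Prop :=
  ∀ E ∈ 𝓔, ∀ ε > 0, ∃ B, Bdd 𝓔 B ∧ ∀ x ∉ B, Metric.ediam (f '' ball E x) < ENNReal.ofReal ε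

def SoBounded {X : Type u} (𝓔 : Set (Set (X × X))) : Prop :=
  ∀ f : X → ℝ, SO 𝓔 f → ∃ B, Bdd 𝓔 B ∧ ∃ M, ∀ x ∉ B, |f x| ≤ M

/-- the product ballean: the coarse structure generated by the sets `pr E F` -/
def prod {X : Type u} {Y : Type v} (𝓔 : Set (Set (X × X))) (𝓕 : Set (Set (Y × Y))) :
    Set (Set ((X × Y) × (X × Y))) := ⋂₀ {𝓒 | Coarse 𝓒 ∧ ∀ E ∈ 𝓔, ∀ F ∈ 𝓕, pr E F ∈ 𝓒}

theorem idl {X : Type u} {𝓔 : Set (Set (X × X))} (h : Ballean 𝓔) : Idl (Bdd 𝓔) := by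
  refine ⟨fun A B ⟨E, hE, x, hx⟩ hB => ⟨E, hE, x, hB.trans hx⟩, fun A B ⟨E, hE, x, hx⟩ ⟨F, hF, y, hy⟩ => ?_⟩
  obtain ⟨G, hG, hxy⟩ : (x, y) ∈ ⋃₀ 𝓔 := h.2 ▸ mem_univ _
  exact ⟨_, h.1.2.2.1 E hE _ (h.1.2.2.2.2 G hG F hF), x,
    union_subset (fun z hz => Or.inl (hx hz)) fun z hz => Or.inr ⟨y, hxy, hy hz⟩⟩

theorem pr_mem {X : Type u} {Y : Type v} {𝓔 : Set (Set (X × X))} {𝓕 : Set (Set (Y × Y))} {E : Set (X × X)}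
    {F : Set (Y × Y)} (hE : E ∈ 𝓔) (hF : F ∈ 𝓕) : pr E F ∈ prod 𝓔 𝓕 := fun _ h => h.2 E hE F hF

theorem sub_pr {X : Type u} {Y : Type v} {𝓔 : Set (Set (X × X))} {𝓕 : Set (Set (Y × Y))} (h𝓔 : Coarse 𝓔)
    (h𝓕 : Coarse 𝓕) {D : Set ((X × Y) × (X × Y))} (hD : D ∈ prod 𝓔 𝓕) : ∃ E ∈ 𝓔, ∃ F ∈ 𝓕, D ⊆ pr E F := by
  refine hD {D | ∃ E ∈ 𝓔, ∃ F ∈ 𝓕, D ⊆ pr E F} ⟨⟨⟨_, h𝓔.1, _, h𝓕.1, ?_⟩, ?_, ?_, ?_, ?_⟩,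
    fun E hE F hF => ⟨E, hE, F, hF, subset_rfl⟩⟩
  · exact fun p hp => ⟨congrArg Prod.fst hp, congrArg Prod.snd hp⟩
  · exact fun D ⟨E, hE, F, hF, h⟩ D' h' => ⟨E, hE, F, hF, h'.trans h⟩
  · exact fun D ⟨E, hE, F, hF, h⟩ D' ⟨E', hE', F', hF', h'⟩ => ⟨_, h𝓔.2.2.1 E hE E' hE', _, h𝓕.2.2.1 F hF F' hF',
      union_subset (fun p hp => ⟨Or.inl (h hp).1, Or.inl (h hp).2⟩) fun p hp => ⟨Or.inr (h' hp).1, Or.inr (h' hp).2⟩⟩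
  · exact fun D ⟨E, hE, F, hF, h⟩ => ⟨_, h𝓔.2.2.2.1 E hE, _, h𝓕.2.2.2.1 F hF, fun p hp => h hp⟩
  · exact fun D ⟨E, hE, F, hF, h⟩ D' ⟨E', hE', F', hF', h'⟩ => ⟨_, h𝓔.2.2.2.2 E hE E' hE', _,
      h𝓕.2.2.2.2 F hF F' hF', fun p ⟨q, h1, h2⟩ => ⟨⟨q.1, (h h1).1, (h' h2).1⟩, ⟨q.2, (h h1).2, (h' h2).2⟩⟩⟩

/-- Q1: the product of two so-bounded balleans is so-bounded -/
theorem result {X : Type u} {Y : Type v} (𝓔 : Set (Set (X × X))) (𝓕 : Set (Set (Y × Y))) (h𝓔 : Ballean 𝓔)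
    (h𝓕 : Ballean 𝓕) (hX : SoBounded 𝓔) (hY : SoBounded 𝓕) : SoBounded (prod 𝓔 𝓕) := by
  intro φ hφ
  have hlt : ∀ ε : ℝ, 0 < ε → ENNReal.ofReal (ε / 2) < ENNReal.ofReal ε := fun ε h =>
    (ENNReal.ofReal_lt_ofReal_iff h).2 (by linarith)
  obtain ⟨A, B, M, ⟨E, hE, x, hx⟩, ⟨F, hF, y, hy⟩, h⟩ := glue h𝓔.1.1 (fun _ => rfl) h𝓕.1.1 (fun _ => rfl) (idl h𝓔)
    (idl h𝓕) (fun _ h => h) (fun _ h => h) φ (fun _ _ C => 0 < C)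
    (fun E hE F hF C hC => by
      obtain ⟨B, ⟨D, hD, p, hp⟩, h⟩ := hφ _ (pr_mem hE hF) C hC
      obtain ⟨E', hE', F', hF', hD'⟩ := sub_pr h𝓔.1 h𝓕.1 hD
      exact ⟨hC.le, _, _, ⟨E', hE', p.1, subset_rfl⟩, ⟨F', hF', p.2, subset_rfl⟩,
        fun q hq => (h q fun h => hq (hD' (hp h))).le⟩)
    (fun _ _ _ _ => ⟨1, one_pos⟩)
    (fun g hg => by
      obtain ⟨B, hB, M, h⟩ := hX g fun E hE ε hε => by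
        obtain ⟨A, hA, h⟩ := hg E hE (ε / 2) (half_pos hε)
        exact ⟨A, hA, fun x hx => (h x hx).trans_lt (hlt ε hε)⟩
      exact ⟨B, M, hB, h⟩)
    (fun g hg => by
      obtain ⟨B, hB, M, h⟩ := hY g fun E hE ε hε => by
        obtain ⟨A, hA, h⟩ := hg E hE (ε / 2) (half_pos hε)
        exact ⟨A, hA, fun x hx => (h x hx).trans_lt (hlt ε hε)⟩
      exact ⟨B, M, hB, h⟩)
  exact ⟨_, ⟨_, pr_mem hE hF, (x, y), fun p hp => ⟨hx hp.1, hy hp.2⟩⟩, M, h⟩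

end Pool.Agent.Results.MP_bddfa7_gt.Product
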